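import Pool.Agent.Lib.MP_80160f_co.TT.Spec

set_option autoImplicit false

/-!
# TT, module Card: three equal sizes
-/

namespace TB.TT

open Finset TB.PL

universe u

namespace CardAux

theorem treeN {W : Type u} [Fintype W] (T : SimpleGraph W) (h : T.IsTree) :
    T.edgeSet.ncard + 1 = Fintype.card W := by
  classical
  rw [← h.card_edgeFinset, Set.ncard_eq_toFinset_card']
  rfl

theorem one {W : Type u} [Fintype W] (G : SimpleGraph W) (B : Set (Sym2 W)) (hB : B ⊆ G.edgeSet)
    (h : (G.deleteEdges B).IsTree) : G.edgeSet.ncard + 1 = Fintype.card W + B.ncard := by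
  have h1 := treeN _ h
  rw [SimpleGraph.edgeSet_deleteEdges] at h1
  have h2 := Set.ncard_diff_add_ncard_of_subset hB (Set.toFinite _)
  omega

end CardAux

open CardAux in
theorem fCard : S_Card.{u} := by
  intro W _ G B₁ B₂ B₃ h12 h13 h23 hU t1 t2 t3
  have e1 := one G B₁ (by rw [← hU]; intro x hx; exact Or.inl (Or.inl hx)) t1
  have e2 := one G B₂ (by rw [← hU]; intro x hx; exact Or.inl (Or.inr hx)) t2
  have e3 := one G B₃ (by rw [← hU]; intro x hx; exact Or.inr hx) t3
  have h4 : (B₁ ∪ B₂ ∪ B₃).ncard = B₁.ncard + B₂.ncard + B₃.ncard := by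
    rw [Set.ncard_union_eq (Set.disjoint_union_left.2 ⟨h13, h23⟩) (Set.toFinite _)
      (Set.toFinite _), Set.ncard_union_eq h12 (Set.toFinite _) (Set.toFinite _)]
  rw [hU] at h4
  omega

end TB.TT
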