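import Pool.Agent.Lib.MP_80160f_co.TT.Spec

/-!
# MP_80160f_co, part TT : the induction over the ears
-/

set_option autoImplicit false

namespace TB.TT

open Finset TB.PL

universe u

theorem fData (h1 : S_Start.{u}) (h2 : S_Next.{u}) (h3 : S_End.{u}) : S_Data.{u} := by
  intro V _ _ H v hH
  have key : ∀ (n : ℕ) (c : V) (U : Finset V) (l r : V → V) (t : V → ℕ)
      (a : V → ℚ), U.card = n → St1 H v c U l r t a →
      ∃ (l r : V → V) (t : V → ℕ) (a : V → ℚ), Fin1 H v l r t a := by
    intro n
    induction n using Nat.strong_induction_on with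
    | _ n ih =>
      intro c U l r t a hn hS
      by_cases hne : ∃ p ∈ U, p ≠ c
      · obtain ⟨U', l', r', t', a', hlt, hS'⟩ := h2 V H v c U l r t a hH hS hne
        exact ih _ (hn ▸ hlt) c U' l' r' t' a' rfl hS'
      · have hU : U = {c} := by
          refine eq_singleton_iff_unique_mem.2 ⟨hS.cU, fun p hp => ?_⟩
          by_contra h
          exact hne ⟨p, hp, h⟩
        subst hU
        exact h3 V H v c l r t a hH hS
  obtain ⟨c, U, l, r, t, a, hS⟩ := h1 V H v hH
  exact key _ c U l r t a rfl hS

end TB.TT
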