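import Pool.Agent.Lib.MP_80160f_co.TT.Spec

/-!
# MP_80160f_co, part TT : the last vertex
-/

set_option autoImplicit false

namespace TB.TT

open Finset TB.PL

universe u

namespace fEndAux

variable {V : Type u} [DecidableEq V] [Fintype V]

theorem main (h1 : S_Core.{u}) (h2 : PL.S_Deg.{u}) (H : SimpleGraph V) (v c : V)
    (l r : V → V) (t : V → ℕ) (a : V → ℚ) (hH : Cubic3 H) (hS : St1 H v c {c} l r t a)
    (x y : V) (hxv : x ≠ v) (hyv : y ≠ v) (hxy : x ≠ y) (hcx : H.Adj c x) (hcy : H.Adj c y)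
    (ha : a x < a y) :
    ∃ (l' r' : V → V) (t' : V → ℕ) (a' : V → ℚ), Fin1 H v l' r' t' a' := by
  obtain ⟨hd1, -, -⟩ := h2 V H hH
  have hcv : c ≠ v := fun h => hS.vU (by rw [mem_singleton]; exact h.symm)
  have hxc : x ≠ c := hcx.ne'
  have hyc : y ≠ c := hcy.ne'
  have hnb : ∀ z, H.Adj c z → z ≠ v → z = x ∨ z = y := by
    intro z hz hzv
    by_cases hzx : z = x
    · exact Or.inl hzx
    · right
      exact (hd1 c v x y z hS.cv hcx (Ne.symm hxv) hcy hyv (Ne.symm hxy) hz hzv hzx).symm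
  have hmX : ∀ z, z ≠ c → z ≠ v → z ∈ (({c} : Finset V)ᶜ).erase v := fun z h3 h4 =>
    mem_erase.2 ⟨h4, mem_compl.2 fun h5 => h3 (mem_singleton.1 h5)⟩
  have hear : EarL H {v} [c] x y := by
    refine ⟨List.nodup_singleton c, by simp, by simpa using hxc, by simpa using hyc, ?_,
      fun _ => hxy, ?_⟩
    · simp [hcx.symm, hcy]
    · intro i hi z hz hzS
      have hi0 : i = 0 := by
        rw [List.length_singleton] at hi
        omega
      subst hi0
      have h3 := hnb z hz fun h => hzS (mem_singleton.2 h)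
      rcases h3 with h3 | h3
      · left
        rw [h3]
        rfl
      · right
        rw [h3]
        rfl
  obtain ⟨l', r', t', a', hFr, hold, -, -, hlast⟩ := h1 V H v (({c} : Finset V)ᶜ.erase v)
    {v} l r t a [c] x y hS.fr hear (by
      intro p hp
      rw [List.mem_singleton] at hp
      subst hp
      refine ⟨fun h => ?_, hcv, fun h => hcv (mem_singleton.1 h)⟩
      exact (mem_compl.1 (mem_erase.1 h).2) (mem_singleton_self p)) (by
      intro p hp h
      exact (mem_erase.1 hp).1 (mem_singleton.1 h)) (hmX x hxc hxv) (hmX y hyc hyv) ha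
  have hun : ({c} : Finset V)ᶜ.erase v ∪ [c].toFinset = univ.erase v := by
    ext z
    simp only [mem_union, mem_erase, mem_compl, mem_singleton, List.mem_toFinset,
      List.mem_singleton, mem_univ, and_true]
    constructor
    · rintro (h | h)
      · exact h.1
      · exact h ▸ hcv
    · intro h
      by_cases hz : z = c
      · exact Or.inr hz
      · exact Or.inl ⟨h, hz⟩
  rw [hun] at hFr
  refine ⟨l', r', t', a', hFr, c, ?_⟩
  intro p hpv hl hr
  by_cases hpc : p = c
  · subst hpc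
    refine ⟨rfl, ?_⟩
    rw [hlast p rfl]
    obtain ⟨z, hz1, hz2, ⟨w, hw, hzw⟩, hz4⟩ := hS.p1
    rw [mem_singleton] at hw
    rw [hw] at hzw
    rcases hnb z hzw.symm hz2 with h | h
    · exfalso
      have h5 := hS.fr.a1 y (hmX y hyc hyv)
      rw [← h, hz4] at ha
      exact absurd h5 (not_le.2 ha)
    · rw [← h, hz4]
  · exfalso
    have h3 := hold p (hmX p hpc hpv.ne)
    rcases hS.vn p (by rw [mem_singleton]; exact hpc) hpv with h | h
    · exact hl (h3.1.trans h)
    · exact hr (h3.2.1.trans h)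

end fEndAux

theorem fEnd (h1 : S_Core.{u}) (h2 : PL.S_Deg.{u}) : S_End.{u} := by
  intro V _ _ H v c l r t a hH hS
  obtain ⟨-, hd2, -⟩ := h2 V H hH
  obtain ⟨x, hcx, hxv, -⟩ := hd2 c v v
  obtain ⟨y, hcy, hyv, hyx⟩ := hd2 c v x
  have hpx : Pend H {c} x := ⟨c, mem_singleton_self c, hcx.symm⟩
  have hpy : Pend H {c} y := ⟨c, mem_singleton_self c, hcy.symm⟩
  have hne : a x ≠ a y := fun h => hyx (hS.inj x y (by rw [mem_singleton]; exact hcx.ne') hxv
    (by rw [mem_singleton]; exact hcy.ne') hyv hpx hpy h).symm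
  rcases lt_or_gt_of_ne hne with h | h
  · exact fEndAux.main h1 h2 H v c l r t a hH hS x y hxv hyv (Ne.symm hyx) hcx hcy h
  · exact fEndAux.main h1 h2 H v c l r t a hH hS y x hyv hxv hyx hcy hcx h

end TB.TT
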