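import Pool.Agent.Lib.MP_80160f_co.TT.Spec

/-!
# MP_80160f_co, part TT : one step of the process
-/

set_option autoImplicit false

namespace TB.TT

open Finset TB.PL

universe u

namespace NextAux

theorem pw_inj {V : Type u} {Q : List V} {a : V → ℚ} (h : Q.Pairwise (fun p q => a p < a q))
    {p q : V} (hp : p ∈ Q) (hq : q ∈ Q) (hpq : a p = a q) : p = q := by
  obtain ⟨i, hi, rfl⟩ := List.mem_iff_getElem.1 hp
  obtain ⟨j, hj, rfl⟩ := List.mem_iff_getElem.1 hq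
  rw [List.pairwise_iff_getElem] at h
  rcases lt_trichotomy i j with h1 | h1 | h1
  · have h2 := h i j hi hj h1
    rw [hpq] at h2
    exact absurd h2 (lt_irrefl _)
  · subst h1
    rfl
  · have h2 := h j i hj hi h1
    rw [hpq] at h2
    exact absurd h2 (lt_irrefl _)

theorem main (h3 : S_Core.{u}) (h5 : PL.S_Deg.{u}) {V : Type u} [DecidableEq V]
    [Fintype V] {H : SimpleGraph V} {v c : V} {U : Finset V} {l r : V → V} {t : V → ℕ}
    {a : V → ℚ} (hH : Cubic3 H) {x y : V}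
    (hS : St1 H v c U l r t a) {Qs : Finset V} (hQU : Qs ⊆ U.erase c)
    (hQne : Qs.Nonempty) (hUQ : ConnIn H (U \ Qs))
    (hQ1 : ∀ q ∈ Qs, ec H {q} (U \ Qs) = 1) {Q : List V} (hE : EarL H (U \ Qs) Q x y)
    (hmem : ∀ z, z ∈ Q ↔ z ∈ Qs) (hxU : x ∉ U) (hyU : y ∉ U) (hxv : x ≠ v) (hyv : y ≠ v)
    (hxy : a x < a y) :
    ∃ (U' : Finset V) (l' r' : V → V) (t' : V → ℕ) (a' : V → ℚ),
        U'.card < U.card ∧ St1 H v c U' l' r' t' a' := by
  classical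
  obtain ⟨d1, d2, d3⟩ := h5 V H hH
  have hQU' : Qs ⊆ U := hQU.trans (erase_subset _ _)
  have hmX : ∀ p, p ∈ Uᶜ.erase v ↔ p ≠ v ∧ p ∉ U := fun p => by rw [mem_erase, mem_compl]
  -- a processed vertex has at most one unprocessed neighbour
  have hone : ∀ p, p ∉ U → p ≠ v → ∀ q ∈ U, ∀ q' ∈ U, H.Adj p q → H.Adj p q' → q = q' := by
    intro p hp hpv q hq q' hq' h1 h2
    have hpX : p ∈ Uᶜ.erase v := (hmX p).2 ⟨hpv, hp⟩
    have hlU : l p ∉ U := by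
      rcases hS.fr.meml p hpX with h | h
      · rw [h]; exact hS.vU
      · exact ((hmX _).1 h.1).2
    have hrU : r p ∉ U := by
      rcases hS.fr.memr p hpX with h | h
      · rw [h]; exact hS.vU
      · exact ((hmX _).1 h.1).2
    exact d1 p (l p) (r p) q q' (hS.fr.adjl p hpX) (hS.fr.adjr p hpX) (hS.fr.lr p hpX) h1
      (fun h => hlU (h ▸ hq)) (fun h => hrU (h ▸ hq)) h2 (fun h => hlU (h ▸ hq'))
      (fun h => hrU (h ▸ hq'))
  obtain ⟨q0, hq0, hxq0⟩ := fNextAux.ear_left hE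
  obtain ⟨q1, hq1, hq1y⟩ := fNextAux.ear_right hE
  have hq0Q : q0 ∈ Q := List.mem_of_mem_head? hq0
  have hq1Q : q1 ∈ Q := List.mem_of_mem_getLast? hq1
  have hq0s := (hmem q0).1 hq0Q
  have hq1s := (hmem q1).1 hq1Q
  have hpx : Pend H U x := ⟨q0, hQU' hq0s, hxq0⟩
  have hpy : Pend H U y := ⟨q1, hQU' hq1s, hq1y.symm⟩
  have hpQ : ∀ q ∈ Q, Pend H (U \ Qs) q := fun q hq => d3 q _ (hQ1 q ((hmem q).1 hq))
  have hx' : ¬ Pend H (U \ Qs) x := by
    rintro ⟨w, hw, hxw⟩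
    have h1 := hone x hxU hxv w (mem_sdiff.1 hw).1 q0 (hQU' hq0s) hxw hxq0
    exact (mem_sdiff.1 hw).2 (h1 ▸ hq0s)
  have hy' : ¬ Pend H (U \ Qs) y := by
    rintro ⟨w, hw, hyw⟩
    have h1 := hone y hyU hyv w (mem_sdiff.1 hw).1 q1 (hQU' hq1s) hyw hq1y.symm
    exact (mem_sdiff.1 hw).2 (h1 ▸ hq1s)
  have hmono : ∀ p, Pend H (U \ Qs) p → Pend H U p := fun p ⟨w, hw, hpw⟩ =>
    ⟨w, (mem_sdiff.1 hw).1, hpw⟩
  -- a processed pending vertex stays pending or is an end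
  have hstay : ∀ p, p ∉ U → Pend H U p → p = x ∨ p = y ∨ Pend H (U \ Qs) p := by
    rintro p hp ⟨w, hw, hpw⟩
    by_cases hwQ : w ∈ Qs
    · rcases fNextAux.ear_out hE ((hmem w).2 hwQ) (fun h => hp (hQU' ((hmem p).1 h)))
        (fun h => hp (mem_sdiff.1 h).1) hpw.symm with h | h
      · exact Or.inl h
      · exact Or.inr (Or.inl h)
    · exact Or.inr (Or.inr ⟨w, mem_sdiff.2 ⟨hw, hwQ⟩, hpw⟩)
  have hxX : x ∈ Uᶜ.erase v := (hmX x).2 ⟨hxv, hxU⟩
  have hyX : y ∈ Uᶜ.erase v := (hmX y).2 ⟨hyv, hyU⟩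
  obtain ⟨l', r', t', a', hF, hold, hQa, hQpw, hlast⟩ :=
    h3 V H v (Uᶜ.erase v) (U \ Qs) l r t a Q x y hS.fr hE (by
      intro p hp
      have h1 := (hmem p).1 hp
      exact ⟨fun h => ((hmX p).1 h).2 (hQU' h1), fun h => hS.vU (h ▸ hQU' h1),
        fun h => (mem_sdiff.1 h).2 h1⟩) (by
      intro p hp h
      exact ((hmX p).1 hp).2 (mem_sdiff.1 h).1) hxX hyX hxy
  have hset : Uᶜ.erase v ∪ Q.toFinset = (U \ Qs)ᶜ.erase v := by
    ext p
    rw [mem_union, List.mem_toFinset, hmX, mem_erase, mem_compl, mem_sdiff, hmem]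
    constructor
    · rintro (h | h)
      · exact ⟨h.1, fun h1 => h.2 h1.1⟩
      · exact ⟨fun h1 => hS.vU (h1 ▸ hQU' h), fun h1 => h1.2 h⟩
    · rintro ⟨h, h1⟩
      by_cases h2 : p ∈ Qs
      · exact Or.inr h2
      · exact Or.inl ⟨h, fun h3 => h1 ⟨h3, h2⟩⟩
  rw [hset] at hF
  have hout : ∀ p, p ∉ U \ Qs → p ∉ Q → p ∉ U := fun p hp hpQ' h =>
    hp (mem_sdiff.2 ⟨h, fun h1 => hpQ' ((hmem p).2 h1)⟩)
  -- a new vertex and an old vertex
  have hmix : ∀ p q, p ∈ Q → q ∉ U → q ≠ v → Pend H (U \ Qs) q → a' p ≠ a' q := by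
    intro p q hp hqU hqv hqp hpq
    have hqX : q ∈ Uᶜ.erase v := (hmX q).2 ⟨hqv, hqU⟩
    rw [(hold q hqX).2.2] at hpq
    have hqy : q ≠ y := fun h => hy' (h ▸ hqp)
    have hne : a q ≠ a y := fun h => hqy (hS.inj q y hqU hqv hyU hyv (hmono q hqp) hpy h)
    obtain ⟨e1, e2⟩ := hQa p hp
    rcases lt_or_gt_of_ne hne with h | h
    · have h6 := e2 q hqX h
      rw [hpq] at h6
      exact absurd h6 (lt_irrefl _)
    · rw [hpq] at e1
      exact absurd e1 (not_le.2 h)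
  refine ⟨U \ Qs, l', r', t', a', ?_, ?_⟩
  · exact card_lt_card (sdiff_ssubset hQU' hQne)
  refine ⟨hF, fun h => hS.vU (mem_sdiff.1 h).1, mem_sdiff.2 ⟨hS.cU,
    fun h => (mem_erase.1 (hQU h)).1 rfl⟩, hUQ, hS.cv, fun p hp => hS.nv p (mem_sdiff.1 hp).1,
    ?_, ?_, ?_⟩
  · -- vn
    intro p hp hpv
    by_cases hpU : p ∈ U
    · have h1 : p ∈ Qs := by
        by_contra h2
        exact hp (mem_sdiff.2 ⟨hpU, h2⟩)
      exact absurd hpv (hS.nv p hpU (mem_erase.1 (hQU h1)).1)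
    · have h1 := hold p ((hmX p).2 ⟨hpv.ne, hpU⟩)
      rw [h1.1, h1.2.1]
      exact hS.vn p hpU hpv
  · -- inj
    intro p q hp hpv hq hqv hpp hqp hpq
    by_cases hpQ' : p ∈ Q
    · by_cases hqQ' : q ∈ Q
      · exact pw_inj hQpw hpQ' hqQ' hpq
      · exact absurd hpq (hmix p q hpQ' (hout q hq hqQ') hqv hqp)
    · by_cases hqQ' : q ∈ Q
      · exact absurd hpq.symm (hmix q p hqQ' (hout p hp hpQ') hpv hpp)
      · have hpU := hout p hp hpQ'
        have hqU := hout q hq hqQ'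
        rw [(hold p ((hmX p).2 ⟨hpv, hpU⟩)).2.2, (hold q ((hmX q).2 ⟨hqv, hqU⟩)).2.2] at hpq
        exact hS.inj p q hpU hpv hqU hqv (hmono p hpp) (hmono q hqp) hpq
  · -- p1
    obtain ⟨p, hpU, hpv, hpp, hp1⟩ := hS.p1
    rcases hstay p hpU hpp with h | h | h
    · exfalso
      have h1 := hS.fr.a1 y hyX
      rw [h] at hp1
      have h2 := hxy
      rw [hp1] at h2
      exact absurd h1 (not_le.2 h2)
    · refine ⟨q1, fun h2 => (mem_sdiff.1 h2).2 hq1s, fun h2 => hS.vU (h2 ▸ hQU' hq1s),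
        hpQ q1 hq1Q, ?_⟩
      rw [hlast q1 hq1, ← h, hp1]
    · exact ⟨p, fun h2 => hpU (mem_sdiff.1 h2).1, hpv, h, by
        rw [(hold p ((hmX p).2 ⟨hpv, hpU⟩)).2.2, hp1]⟩

end NextAux

theorem fNext (h1 : PL.S_Path.{u}) (h2 : PL.S_Rev.{u}) (h3 : S_Core.{u}) (h5 : PL.S_Deg.{u}) :
    S_Next.{u} := by
  intro V _ _ H v c U l r t a hH hS hne
  obtain ⟨Qs, hQU, hQne, hQc, hUQ, hQ2, hQ1⟩ := ear hH hS.cU hS.conn hne ⟨v, hS.vU, hS.cv⟩
  have hQU' : Qs ⊆ U := hQU.trans (erase_subset _ _)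
  obtain ⟨Q, x, y, hE, hmem, hxU, hyU⟩ := h1 V H hH U Qs hQU' hQne hQc hQ2 hQ1
  obtain ⟨d1, -, -⟩ := h5 V H hH
  obtain ⟨q0, hq0, hxq0⟩ := fNextAux.ear_left hE
  obtain ⟨q1, hq1, hq1y⟩ := fNextAux.ear_right hE
  have hq0Q : q0 ∈ Q := List.mem_of_mem_head? hq0
  have hq1Q : q1 ∈ Q := List.mem_of_mem_getLast? hq1
  have hq0s := (hmem q0).1 hq0Q
  have hq1s := (hmem q1).1 hq1Q
  have hxv : x ≠ v := by
    rintro rfl
    exact hS.nv q0 (hQU' hq0s) (mem_erase.1 (hQU hq0s)).1 hxq0.symm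
  have hyv : y ≠ v := by
    rintro rfl
    exact hS.nv q1 (hQU' hq1s) (mem_erase.1 (hQU hq1s)).1 hq1y
  have hpx : Pend H U x := ⟨q0, hQU' hq0s, hxq0⟩
  have hpy : Pend H U y := ⟨q1, hQU' hq1s, hq1y.symm⟩
  have hxy : x ≠ y := by
    intro hxy
    have h6 : q0 ≠ q1 := by
      intro h6
      apply hE.one _ hxy
      cases Q with
      | nil => exact absurd rfl hE.ne
      | cons z Q' =>
        cases Q' with
        | nil => rfl
        | cons z' Q'' =>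
          exfalso
          have h7 : z = q0 := by simpa using hq0
          have h8 : q1 ∈ z' :: Q'' := by
            rw [List.getLast?_cons_cons] at hq1
            exact List.mem_of_mem_getLast? hq1
          have h9 := hE.nd
          rw [List.nodup_cons] at h9
          exact h9.1 (by rw [h7, h6]; exact h8)
    have hxX : x ∈ Uᶜ.erase v := mem_erase.2 ⟨hxv, mem_compl.2 hxU⟩
    have hlU : l x ∉ U := by
      rcases hS.fr.meml x hxX with h | h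
      · rw [h]; exact hS.vU
      · exact mem_compl.1 (mem_erase.1 h.1).2
    have hrU : r x ∉ U := by
      rcases hS.fr.memr x hxX with h | h
      · rw [h]; exact hS.vU
      · exact mem_compl.1 (mem_erase.1 h.1).2
    exact h6 (d1 x (l x) (r x) q0 q1 (hS.fr.adjl x hxX) (hS.fr.adjr x hxX) (hS.fr.lr x hxX) hxq0
      (fun h => hlU (h ▸ hQU' hq0s)) (fun h => hrU (h ▸ hQU' hq0s)) (hxy ▸ hq1y.symm)
      (fun h => hlU (h ▸ hQU' hq1s)) (fun h => hrU (h ▸ hQU' hq1s)))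
  have hne' : a x ≠ a y := fun h => hxy (hS.inj x y hxU hxv hyU hyv hpx hpy h)
  rcases lt_or_gt_of_ne hne' with h | h
  · exact NextAux.main h3 h5 hH hS hQU hQne hUQ hQ1 hE hmem hxU hyU hxv hyv h
  · exact NextAux.main h3 h5 hH hS hQU hQne hUQ hQ1 (h2 V H _ Q x y hE)
      (fun z => by rw [List.mem_reverse]; exact hmem z) hyU hxU hyv hxv h

end TB.TT
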