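import Pool.Agent.Lib.MP_80160f_co.TT.Spec

/-!
# MP_80160f_co, part TT : the complement of the right end edges is a tree
-/

set_option autoImplicit false

namespace TB.TT

open Finset TB.PL

universe u

namespace TLAux

variable {V : Type u} [DecidableEq V] [Fintype V] {H : SimpleGraph V} {v : V} {l r : V → V}
  {t : V → ℕ} {a : V → ℚ}

/-- the measure -/
def mu (t : V → ℕ) (a : V → ℚ) (p : V) : ℕ :=
  t p * (Fintype.card V + 1) + (univ.filter fun q => (- a p) < (- a q)).card

theorem mu_lt_of_t {p w : V} (h : t w < t p) : mu t a w < mu t a p := by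
  have h1 : (univ.filter fun q => (- a w) < (- a q)).card ≤ Fintype.card V := card_le_univ _
  have h2 : (t w + 1) * (Fintype.card V + 1) ≤ t p * (Fintype.card V + 1) :=
    Nat.mul_le_mul_right _ h
  unfold mu
  rw [Nat.add_mul, one_mul] at h2
  omega

theorem mu_lt_of_a {p w : V} (h : t w = t p) (h' : a w < a p) : mu t a w < mu t a p := by
  have h1 := TB.PL.fMidAux.card_lt_of_lt (fun q => - a q) (p := p) (w := w) (neg_lt_neg h')
  unfold mu
  rw [h]
  exact Nat.add_lt_add_left h1 _

end TLAux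

theorem fTL (h1 : S_Tree.{u}) (h2 : PL.S_Deg.{u}) : S_TL.{u} := by
  intro V _ _ H v l r t a hH hF
  have hm : ∀ q : V, q ≠ v → q ∈ univ.erase v := fun q hq => mem_erase.2 ⟨hq, mem_univ q⟩
  have hne : ∃ p, p ≠ v := by
    obtain ⟨q, hq, -, -⟩ := (h2 V H hH).2.1 v v v
    exact ⟨q, hq.ne'⟩
  refine h1 V H v (fun p q => t p < t q ∧ r q = p) l (TLAux.mu t a) hne ?_ ?_ ?_
  · intro p q hp hq hlp hlq
    exact hF.fr.lv1 p (hm p hp) q (hm q hq) hlp hlq
  · intro p hp hlv
    have hadj := hF.fr.adjl p (hm p hp)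
    have hle : t (l p) ≤ t p := by
      rcases hF.fr.meml p (hm p hp) with h | h
      · exact absurd h hlv
      · exact h.2
    refine ⟨hadj, ?_, fun h => absurd h.1 (not_lt.2 hle),
      fun h => hF.fr.lr p (hm p hp) h.2.symm⟩
    rcases hle.lt_or_eq with h | h
    · exact TLAux.mu_lt_of_t h
    · rcases hF.fr.ty p (hm p hp) (l p) (hm _ hlv) hadj h.ge with ⟨-, h3 | h3⟩ | ⟨h0, -⟩
      · exact absurd h3.1.symm (hF.fr.lr p (hm p hp))
      · exact TLAux.mu_lt_of_a h h3.2.2
      · exact absurd h.symm h0.ne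
  · have key : ∀ p q, p ≠ v → q ≠ v → H.Adj p q → t p ≤ t q → ¬ (t p < t q ∧ r q = p) →
        l p = q ∨ l q = p := by
      intro p q hp hq hpq hle hE
      rcases hF.fr.ty p (hm p hp) q (hm q hq) hpq hle with ⟨-, h | h⟩ | ⟨h0, h | h⟩
      · exact Or.inr h.2.1
      · exact Or.inl h.2.1
      · exact Or.inr h.1
      · exact absurd ⟨h0, h.1⟩ hE
    intro p q hp hq hpq hE1 hE2
    rcases le_total (t p) (t q) with hle | hle
    · exact key p q hp hq hpq hle hE1
    · exact (key q p hq hp hpq.symm hle hE2).symm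

end TB.TT
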