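import Pool.Agent.Lib.MP_80160f_co.TT.Spec

/-!
# MP_80160f_co, part TT : the complement of the left end edges is a tree
-/

set_option autoImplicit false

namespace TB.TT

open Finset TB.PL

universe u

namespace TRAux

variable {V : Type u} [DecidableEq V] [Fintype V] {H : SimpleGraph V} {v : V} {l r : V → V}
  {t : V → ℕ} {a : V → ℚ}

/-- the measure drops along the parent function `r` -/
theorem drop (hF : Fr1 H v (univ.erase v) l r t a) (p : V) (hp : p ≠ v) (hr : r p ≠ v) :
    t (r p) * (Fintype.card V + 1) + (univ.filter fun q => a (r p) < a q).card <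
      t p * (Fintype.card V + 1) + (univ.filter fun q => a p < a q).card := by
  have hm : ∀ q : V, q ≠ v → q ∈ univ.erase v := fun q hq => mem_erase.2 ⟨hq, mem_univ q⟩
  obtain ⟨-, hle⟩ : r p ∈ univ.erase v ∧ t (r p) ≤ t p := by
    rcases hF.memr p (hm p hp) with h | h
    · exact absurd h hr
    · exact h
  have hadj := hF.adjr p (hm p hp)
  rcases hle.lt_or_eq with hlt | heq
  · have h1 : (univ.filter fun q => a (r p) < a q).card ≤ Fintype.card V := card_le_univ _
    have h2 : (t (r p) + 1) * (Fintype.card V + 1) ≤ t p * (Fintype.card V + 1) :=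
      Nat.mul_le_mul_right _ hlt
    rw [Nat.add_mul, Nat.one_mul] at h2
    omega
  · rcases hF.ty p (hm p hp) (r p) (hm _ hr) hadj heq.ge with ⟨-, h | h⟩ | ⟨h0, -⟩
    · have h1 := TB.PL.fMidAux.card_lt_of_lt a h.2.2
      rw [heq]
      exact Nat.add_lt_add_left h1 _
    · exact absurd h.2.1 (hF.lr p (hm p hp))
    · exact absurd heq.symm h0.ne

/-- an edge which is not a left end edge joins a vertex with its parent -/
theorem par (hF : Fr1 H v (univ.erase v) l r t a) (p q : V) (hp : p ≠ v) (hq : q ≠ v)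
    (hpq : H.Adj p q) (hle : t p ≤ t q) (h1 : ¬ (t p < t q ∧ l q = p)) : r p = q ∨ r q = p := by
  have hm : ∀ q : V, q ≠ v → q ∈ univ.erase v := fun q hq => mem_erase.2 ⟨hq, mem_univ q⟩
  rcases hF.ty p (hm p hp) q (hm q hq) hpq hle with ⟨-, h | h⟩ | ⟨h0, h | h⟩
  · exact Or.inl h.1
  · exact Or.inr h.1
  · exact absurd ⟨h0, h.1⟩ h1
  · exact Or.inr h.1

end TRAux

theorem fTR (h1 : S_Tree.{u}) (h2 : PL.S_Deg.{u}) : S_TR.{u} := by
  intro V _ _ H v l r t a hH hF
  have hm : ∀ q : V, q ≠ v → q ∈ univ.erase v := fun q hq => mem_erase.2 ⟨hq, mem_univ q⟩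
  have hne : ∃ p, p ≠ v := by
    obtain ⟨q, hq, -, -⟩ := (h2 V H hH).2.1 v v v
    exact ⟨q, hq.ne'⟩
  refine h1 V H v (fun p q => t p < t q ∧ l q = p) r
    (fun p => t p * (Fintype.card V + 1) + (univ.filter fun q => a p < a q).card) hne ?_ ?_ ?_
  · intro p q hp hq hrp hrq
    exact hF.fr.rv1 p (hm p hp) q (hm q hq) hrp hrq
  · intro p hp hrp
    have hle : t (r p) ≤ t p := by
      rcases hF.fr.memr p (hm p hp) with h | h
      · exact absurd h hrp
      · exact h.2
    refine ⟨hF.fr.adjr p (hm p hp), TRAux.drop hF.fr p hp hrp, ?_, ?_⟩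
    · exact fun h => absurd h.1 hle.not_gt
    · exact fun h => hF.fr.lr p (hm p hp) h.2
  · intro p q hp hq hpq hE1 hE2
    rcases le_total (t p) (t q) with hle | hle
    · exact TRAux.par hF.fr p q hp hq hpq hle hE1
    · exact (TRAux.par hF.fr q p hq hp hpq.symm hle hE2).symm

end TB.TT
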