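import Pool.Agent.Lib.MP_80160f_co.TT.Spec

/-!
# MP_80160f_co, part TT: a spanning tree from a parent function
-/

set_option autoImplicit false

namespace TB.TT

open Finset TB.PL

universe u

namespace TreeAux

/-- adjacency in the graph of the statement -/
theorem adj {V : Type u} (H : SimpleGraph V) (v : V) (E : V → V → Prop) (p q : ({v}ᶜ : Set V)) :
    ((H.induce ({v}ᶜ : Set V)).deleteEdges
        {e | ∃ p q : ({v}ᶜ : Set V), e = s(p, q) ∧ H.Adj (p : V) q ∧ E p q}).Adj p q ↔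
      H.Adj (p : V) q ∧ ¬ E p q ∧ ¬ E q p := by
  rw [SimpleGraph.deleteEdges_adj, SimpleGraph.induce_adj]
  constructor
  · rintro ⟨h1, h2⟩
    exact ⟨h1, fun h3 => h2 ⟨p, q, rfl, h1, h3⟩, fun h3 => h2 ⟨q, p, Sym2.eq_swap, h1.symm, h3⟩⟩
  · rintro ⟨h1, h2, h3⟩
    refine ⟨h1, ?_⟩
    rintro ⟨a, b, h4, _, h6⟩
    rcases Sym2.eq_iff.1 h4 with ⟨rfl, rfl⟩ | ⟨rfl, rfl⟩
    · exact h2 h6
    · exact h3 h6

/-- a graph with a parent function (with root `z`) is a tree -/
theorem tree {W : Type u} [Fintype W] (T : SimpleGraph W) (z : W) (g : W → W) (μ : W → ℕ)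
    (h1 : ∀ p, p ≠ z → T.Adj p (g p) ∧ μ (g p) < μ p)
    (h2 : ∀ p q, T.Adj p q → (p ≠ z ∧ g p = q) ∨ (q ≠ z ∧ g q = p)) : T.IsTree := by
  classical
  have hr : ∀ n : ℕ, ∀ p, μ p = n → T.Reachable p z := by
    intro n
    induction n using Nat.strong_induction_on with
    | _ n ih =>
      intro p hp
      by_cases hz : p = z
      · rw [hz]
      · obtain ⟨h3, h4⟩ := h1 p hz
        exact h3.reachable.trans (ih _ (hp ▸ h4) _ rfl)
  have hc : T.Connected := by
    have : Nonempty W := ⟨z⟩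
    exact ⟨fun p q => (hr _ p rfl).trans (hr _ q rfl).symm⟩
  rw [SimpleGraph.isTree_iff_connected_and_card]
  refine ⟨hc, le_antisymm ?_ hc.card_vert_le_card_edgeSet_add_one⟩
  have hs : T.edgeSet ⊆ ((univ.erase z).image fun p => s(p, g p) : Finset (Sym2 W)) := by
    intro e
    induction e using Sym2.ind with
    | _ p q =>
      intro he
      rw [SimpleGraph.mem_edgeSet] at he
      rw [Finset.mem_coe, Finset.mem_image]
      rcases h2 p q he with ⟨h3, h4⟩ | ⟨h3, h4⟩
      · exact ⟨p, Finset.mem_erase.2 ⟨h3, mem_univ p⟩, by rw [h4]⟩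
      · exact ⟨q, Finset.mem_erase.2 ⟨h3, mem_univ q⟩, by rw [h4, Sym2.eq_swap]⟩
  have h5 : Nat.card T.edgeSet ≤ Fintype.card W - 1 := by
    have h6 := Set.ncard_le_ncard hs (Finset.finite_toSet _)
    rw [Set.ncard_coe_finset] at h6
    have h7 := Finset.card_image_le (s := univ.erase z) (f := fun p => s(p, g p))
    rw [Finset.card_erase_of_mem (mem_univ z), Finset.card_univ] at h7
    exact (Nat.card_coe_set_eq T.edgeSet).trans_le (h6.trans h7)
  have h8 : 0 < Fintype.card W := Fintype.card_pos_iff.2 ⟨z⟩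
  rw [Nat.card_eq_fintype_card (α := W)]
  omega

/-- there is a root -/
theorem root {V : Type u} (v : V) (f : V → V) (μ : V → ℕ)
    (h1 : ∀ p, p ≠ v → f p ≠ v → μ (f p) < μ p) (p : V) (hp : p ≠ v) : ∃ z, z ≠ v ∧ f z = v := by
  have h : ∀ n : ℕ, ∀ p, p ≠ v → μ p = n → ∃ z, z ≠ v ∧ f z = v := by
    intro n
    induction n using Nat.strong_induction_on with
    | _ n ih =>
      intro p hp hn
      by_cases hz : f p = v
      · exact ⟨p, hp, hz⟩
      · exact ih _ (hn ▸ h1 p hp hz) (f p) hz rfl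
  exact h _ p hp rfl

end TreeAux

theorem fTree : S_Tree.{u} := by
  classical
  intro V _ _ H v E f μ h0 hf0 hf1 hf2
  obtain ⟨p0, hp0⟩ := h0
  obtain ⟨z, hz, hfz⟩ := TreeAux.root v f μ (fun p hp hfp => (hf1 p hp hfp).2.1) p0 hp0
  have hne : ∀ p : ({v}ᶜ : Set V), (p : V) ≠ v := fun p => p.2
  refine TreeAux.tree _ ⟨z, hz⟩ (fun p => if h : f p ≠ v then ⟨f p, h⟩ else p) (fun p => μ p) ?_ ?_
  · intro p hp
    have h1 : f p ≠ v := by
      intro h
      exact hp (Subtype.ext (hf0 p z (hne p) hz h hfz))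
    obtain ⟨h2, h3, h4, h5⟩ := hf1 p (hne p) h1
    simp only [h1, ne_eq, not_false_eq_true, dite_true]
    exact ⟨(TreeAux.adj H v E p ⟨f p, h1⟩).2 ⟨h2, h4, h5⟩, h3⟩
  · intro p q hpq
    obtain ⟨h2, h3, h4⟩ := (TreeAux.adj H v E p q).1 hpq
    rcases hf2 p q (hne p) (hne q) h2 h3 h4 with h5 | h5
    · have h6 : f p ≠ v := by
        rw [h5]
        exact hne q
      left
      refine ⟨fun h => h6 (by rw [h]; exact hfz), ?_⟩
      simp only [h6, ne_eq, not_false_eq_true, dite_true]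
      exact Subtype.ext h5
    · have h6 : f q ≠ v := by
        rw [h5]
        exact hne p
      right
      refine ⟨fun h => h6 (by rw [h]; exact hfz), ?_⟩
      simp only [h6, ne_eq, not_false_eq_true, dite_true]
      exact Subtype.ext h5

end TB.TT
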