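import Pool.Agent.Lib.MP_80160f_co.TT.Init
import Pool.Agent.Lib.MP_80160f_co.TT.Core
import Pool.Agent.Lib.MP_80160f_co.TT.Next
import Pool.Agent.Lib.MP_80160f_co.TT.Start
import Pool.Agent.Lib.MP_80160f_co.TT.End
import Pool.Agent.Lib.MP_80160f_co.TT.Data
import Pool.Agent.Lib.MP_80160f_co.TT.Right
import Pool.Agent.Lib.MP_80160f_co.TT.Mid
import Pool.Agent.Lib.MP_80160f_co.TT.Tree
import Pool.Agent.Lib.MP_80160f_co.TT.TR
import Pool.Agent.Lib.MP_80160f_co.TT.TL
import Pool.Agent.Lib.MP_80160f_co.TT.TM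
import Pool.Agent.Lib.MP_80160f_co.TT.Card
import Pool.Agent.Lib.MP_80160f_co.TT.Main

/-!
# MP_80160f_co, part TT : everything together
-/

set_option autoImplicit false

namespace TB.TT

universe u

theorem main : S_Main.{u} := by
  have hDeg : PL.S_Deg.{u} := PL.fDeg
  have hTree : S_Tree.{u} := fTree
  exact fMain (fData (fStart PL.fPath fInit hDeg) (fNext PL.fPath PL.fRev fCore hDeg)
    (fEnd fCore hDeg)) (fRight hDeg) fMid PL.fBase (fTR hTree hDeg) (fTL hTree hDeg)
    (fTM hTree hDeg) fCard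

end TB.TT
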