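import Pool.Agent.Lib.MP_80160f_co.TT.Spec

/-!
# MP_80160f_co, part TT: the first frame
-/

set_option autoImplicit false

namespace TB.TT

open Finset TB.PL

universe u

open TB.PL.fInitAux

theorem fInit : S_Init.{u} := by
  intro V _ H v S Q h hS
  have hk := two_le h
  set k := Q.length with hkdef
  have hk1 : (0 : ℚ) < (k : ℚ) - 1 := by
    have : (2 : ℚ) ≤ k := by exact_mod_cast hk
    linarith
  set a : V → ℚ := fun p => (Q.idxOf p : ℚ) / ((k : ℚ) - 1) with ha
  have hlt : ∀ p q : V, Q.idxOf p < Q.idxOf q → a p < a q := by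
    intro p q hpq
    have h1 : (Q.idxOf p : ℚ) < (Q.idxOf q : ℚ) := by exact_mod_cast hpq
    exact div_lt_div_of_pos_right h1 hk1
  -- neighbours in the ear
  have hnb : ∀ p ∈ Q, ∀ z, H.Adj p z → z ∉ S →
      en v Q (Q.idxOf p) = z ∨ en v Q (Q.idxOf p + 2) = z := by
    intro p hp z hz hzS
    obtain ⟨h1, h2⟩ := pos (v := v) Q hp
    have h3 : Q[Q.idxOf p] = p := List.getElem_idxOf h1
    rcases h.nb (Q.idxOf p) h1 z (by rw [h3]; exact hz) hzS with h4 | h4
    · exact Or.inl (en_of_some h4)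
    · exact Or.inr (en_of_some h4)
  have hl0 : ∀ p ∈ Q, en v Q (Q.idxOf p) = v → Q.idxOf p = 0 := by
    intro p hp h0
    obtain ⟨h1, -⟩ := pos (v := v) Q hp
    by_contra h2
    obtain ⟨j, hj⟩ := Nat.exists_eq_succ_of_ne_zero h2
    rw [hj] at h0
    exact en_ne h (by omega) h0
  have hr0 : ∀ p ∈ Q, en v Q (Q.idxOf p + 2) = v → Q.idxOf p + 1 = k := by
    intro p hp h0
    obtain ⟨h1, -⟩ := pos (v := v) Q hp
    by_contra h2
    exact en_ne h (j := Q.idxOf p + 1) (by omega) h0
  have hlm : ∀ p ∈ Q, en v Q (Q.idxOf p) = v ∨ en v Q (Q.idxOf p) ∈ Q := by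
    intro p hp
    obtain ⟨h1, -⟩ := pos (v := v) Q hp
    rcases Nat.eq_zero_or_pos (Q.idxOf p) with h2 | h2
    · left
      rw [h2]
      rfl
    · right
      obtain ⟨j, hj⟩ := Nat.exists_eq_succ_of_ne_zero h2.ne'
      rw [hj]
      exact (pos_eq h (j := j) (by omega) rfl).1
  have hrm : ∀ p ∈ Q, en v Q (Q.idxOf p + 2) = v ∨ en v Q (Q.idxOf p + 2) ∈ Q := by
    intro p hp
    obtain ⟨h1, -⟩ := pos (v := v) Q hp
    by_cases h2 : Q.idxOf p + 1 = k
    · left
      have h3 : Q.idxOf p + 2 = Q.length + 1 := by omega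
      rw [h3]
      exact en_last v Q
    · right
      exact (pos_eq h (j := Q.idxOf p + 1) (by omega) rfl).1
  refine ⟨fun p => en v Q (Q.idxOf p), fun p => en v Q (Q.idxOf p + 2), fun _ => 0, a, ?_, ?_, ?_,
    ?_⟩
  · refine ⟨?_, ?_, ?_, ?_, ?_, ?_, ?_, ?_, ?_, ?_, ?_, ?_⟩
    · intro hv
      exact h.xQ (List.mem_toFinset.mp hv)
    · intro p hp
      obtain ⟨h1, h2⟩ := pos (v := v) Q (List.mem_toFinset.mp hp)
      have h3 := (adj_en h (j := Q.idxOf p) (by omega)).symm
      rw [h2] at h3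
      exact h3
    · intro p hp
      obtain ⟨h1, h2⟩ := pos (v := v) Q (List.mem_toFinset.mp hp)
      have h3 := adj_en h (j := Q.idxOf p + 1) (by omega)
      rw [h2] at h3
      exact h3
    · intro p hp h4
      obtain ⟨h1, h2⟩ := pos (v := v) Q (List.mem_toFinset.mp hp)
      have h4' : en v Q (Q.idxOf p) = en v Q (Q.idxOf p + 2) := h4
      rcases Nat.eq_zero_or_pos (Q.idxOf p) with h5 | h5
      · rw [h5] at h4'
        exact en_ne h (j := 1) (by omega) h4'.symm
      · obtain ⟨j, hj⟩ := Nat.exists_eq_succ_of_ne_zero h5.ne'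
        by_cases h6 : Q.idxOf p + 1 = k
        · have h7 : Q.idxOf p + 2 = Q.length + 1 := by omega
          rw [h7, en_last, hj] at h4'
          exact en_ne h (j := j) (by omega) h4'
        · rw [hj] at h4'
          have h8 := en_inj h (i := j) (j := j + 2) (by omega) (by omega) h4'
          omega
    · intro p hp
      rcases hlm p (List.mem_toFinset.mp hp) with h1 | h1
      · exact Or.inl h1
      · exact Or.inr ⟨List.mem_toFinset.mpr h1, le_rfl⟩
    · intro p hp
      rcases hrm p (List.mem_toFinset.mp hp) with h1 | h1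
      · exact Or.inl h1
      · exact Or.inr ⟨List.mem_toFinset.mpr h1, le_rfl⟩
    · intro p hp q hq hpq _
      have hp' := List.mem_toFinset.mp hp
      have hq' := List.mem_toFinset.mp hq
      obtain ⟨h1, h2⟩ := pos (v := v) Q hp'
      obtain ⟨h1q, h2q⟩ := pos (v := v) Q hq'
      left
      refine ⟨rfl, ?_⟩
      rcases hnb p hp' q hpq (hS q hq') with h3 | h3
      · right
        have h4 : Q.idxOf p ≠ 0 := by
          intro h5
          rw [h5, en_zero] at h3
          exact h.xQ (h3 ▸ hq')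
        obtain ⟨j, hj⟩ := Nat.exists_eq_succ_of_ne_zero h4
        have h5 : Q.idxOf q = j := by
          rw [hj] at h3
          exact (pos_eq h (j := j) (by omega) h3).2
        have h6 : a q < a p := hlt q p (by omega)
        refine ⟨?_, h3, h6⟩
        show en v Q (Q.idxOf q + 2) = p
        rw [h5, ← h2, hj]
      · left
        have h4 : Q.idxOf p + 1 ≠ k := by
          intro h5
          have h7 : Q.idxOf p + 2 = Q.length + 1 := by omega
          rw [h7, en_last] at h3
          exact h.xQ (h3 ▸ hq')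
        have h5 : Q.idxOf q = Q.idxOf p + 1 :=
          (pos_eq h (j := Q.idxOf p + 1) (by omega) h3).2
        have h6 : a p < a q := hlt p q (by omega)
        refine ⟨h3, ?_, h6⟩
        show en v Q (Q.idxOf q) = p
        rw [h5, h2]
    · intro p hp h0
      rfl
    · intro p hp h0
      have h1 := hr0 p (List.mem_toFinset.mp hp) h0
      refine ⟨rfl, ?_⟩
      show (Q.idxOf p : ℚ) / ((k : ℚ) - 1) = 1
      have h2 : (Q.idxOf p : ℚ) = (k : ℚ) - 1 := by
        rw [← h1]
        push_cast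
        ring
      rw [h2, div_self hk1.ne']
    · intro p hp q hq h0 h0'
      have hp' := List.mem_toFinset.mp hp
      have hq' := List.mem_toFinset.mp hq
      have h1 := hl0 p hp' h0
      have h2 := hl0 q hq' h0'
      rw [← (pos (v := v) Q hp').2, ← (pos (v := v) Q hq').2, h1, h2]
    · intro p hp q hq h0 h0'
      have hp' := List.mem_toFinset.mp hp
      have hq' := List.mem_toFinset.mp hq
      have h1 := hr0 p hp' h0
      have h2 := hr0 q hq' h0'
      have h3 : Q.idxOf p = Q.idxOf q := by omega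
      rw [← (pos (v := v) Q hp').2, ← (pos (v := v) Q hq').2, h3]
    · intro p hp
      obtain ⟨h1, -⟩ := pos (v := v) Q (List.mem_toFinset.mp hp)
      show (Q.idxOf p : ℚ) / ((k : ℚ) - 1) ≤ 1
      rw [div_le_one hk1]
      have h2 : (Q.idxOf p : ℚ) + 1 ≤ (k : ℚ) := by exact_mod_cast h1
      linarith
  · rw [List.pairwise_iff_getElem]
    intro i j hi hj hij
    have h1 : Q.idxOf Q[i] = i := List.Nodup.idxOf_getElem h.nd i hi
    have h2 : Q.idxOf Q[j] = j := List.Nodup.idxOf_getElem h.nd j hj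
    have h3 : a Q[i] < a Q[j] := hlt _ _ (by rw [h1, h2]; exact hij)
    exact h3
  · intro p hp
    have h1 : Q.idxOf p = k - 1 := by
      rw [List.getLast?_eq_getElem?] at hp
      obtain ⟨h2, h3⟩ := List.getElem?_eq_some_iff.mp hp
      rw [← h3, List.Nodup.idxOf_getElem h.nd]
    show (Q.idxOf p : ℚ) / ((k : ℚ) - 1) = 1
    rw [h1, Nat.cast_sub (by omega), Nat.cast_one, div_self hk1.ne']
  · intro p hp hv hpv
    exact hnb p hp v hpv hv

end TB.TT
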