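import Pool.Agent.Lib.MP_80160f_co.PL.All

/-!
# MP_80160f_co, part TT : two of three

## The theorem

`H` cubic and 3-edge-connected, `v` a vertex, `G = H - v`. Then `E(G)` is the disjoint union of `B₁`,
`B₂`, `B₃` such that every `G - Bᵢ` is a spanning tree of `G` (so the three sets have the same size) and
`B₁` and `B₃` are 2-bases of `G`.

## The proof

As in the part PL (see `PL/Spec.lean`, whose files `Init`, `Core`, `Start`, `Next`, `End`, `Data`, `Right`,
`Mid` are copied here, without the list `B`, without the potential `b` and without the K33 model). The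
vertices different from `v` are processed along a nonseparating ear sequence (`TB.ear`): `U` = the
unprocessed vertices, `U` is connected and contains `c`. Every ear is a path `Q = q_1, ..., q_k` with two
end edges `x q_1` and `q_k y` to processed vertices `x, y`. There is only one potential `a`; any two
pending vertices (processed vertices with a neighbour in `U`) have different values of `a`, and the ear is
directed such that `a x < a y`. The vertices of the ear get values `a q_1 < ... < a q_k = a y` which are larger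
than all the values of `a` smaller than `a y`.

Every processed vertex `u` has a left neighbour `l u` and a right neighbour `r u` on the path of its ear
(prolonged by `x` and `y`) and the number `t u` of its ear. The edges are partitioned into the edges inside
of the ears (`B₁`: `t u = t w`), the left end edges (`B₂`: `l w = u`, `t u < t w`, here `a u < a w`) and the
right end edges (`B₃`: `r w = u`, `t u < t w`, here `a u = a w`). The complement of `B₂` consists of the edges
`u (r u)`, the complement of `B₃` of the edges `u (l u)`, the complement of `B₁` of the edges from `u` to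
its third neighbour.
-/

set_option autoImplicit false
set_option linter.unusedSectionVars false

namespace TB.TT

open Finset TB.PL

universe u

/-- the type of the edge `p q`, where `t p ≤ t q` -/
def Ty1 {V : Type u} (l r : V → V) (t : V → ℕ) (a : V → ℚ) (p q : V) : Prop :=
  (t p = t q ∧ ((r p = q ∧ l q = p ∧ a p < a q) ∨ (r q = p ∧ l p = q ∧ a q < a p))) ∨
  (t p < t q ∧ ((l q = p ∧ a p < a q) ∨ (r q = p ∧ a p = a q)))

/-- the frame on the set `X` of the processed vertices -/
structure Fr1 {V : Type u} (H : SimpleGraph V) (v : V) (X : Finset V) (l r : V → V) (t : V → ℕ)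
    (a : V → ℚ) : Prop where
  vX : v ∉ X
  adjl : ∀ p ∈ X, H.Adj p (l p)
  adjr : ∀ p ∈ X, H.Adj p (r p)
  lr : ∀ p ∈ X, l p ≠ r p
  meml : ∀ p ∈ X, l p = v ∨ (l p ∈ X ∧ t (l p) ≤ t p)
  memr : ∀ p ∈ X, r p = v ∨ (r p ∈ X ∧ t (r p) ≤ t p)
  ty : ∀ p ∈ X, ∀ q ∈ X, H.Adj p q → t p ≤ t q → Ty1 l r t a p q
  lv : ∀ p ∈ X, l p = v → t p = 0
  rv : ∀ p ∈ X, r p = v → t p = 0 ∧ a p = 1
  lv1 : ∀ p ∈ X, ∀ q ∈ X, l p = v → l q = v → p = q
  rv1 : ∀ p ∈ X, ∀ q ∈ X, r p = v → r q = v → p = q
  a1 : ∀ p ∈ X, a p ≤ 1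

/-- the state of the process: `U` = the unprocessed vertices -/
structure St1 {V : Type u} [DecidableEq V] [Fintype V] (H : SimpleGraph V) (v c : V) (U : Finset V)
    (l r : V → V) (t : V → ℕ) (a : V → ℚ) : Prop where
  fr : Fr1 H v (Uᶜ.erase v) l r t a
  vU : v ∉ U
  cU : c ∈ U
  conn : ConnIn H U
  cv : H.Adj c v
  nv : ∀ p ∈ U, p ≠ c → ¬ H.Adj p v
  vn : ∀ p, p ∉ U → H.Adj p v → l p = v ∨ r p = v
  inj : ∀ p q, p ∉ U → p ≠ v → q ∉ U → q ≠ v → Pend H U p → Pend H U q → a p = a q → p = q
  p1 : ∃ p, p ∉ U ∧ p ≠ v ∧ Pend H U p ∧ a p = 1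

/-- the final data: a frame on all the vertices different from `v` -/
structure Fin1 {V : Type u} [DecidableEq V] [Fintype V] (H : SimpleGraph V) (v : V) (l r : V → V)
    (t : V → ℕ) (a : V → ℚ) : Prop where
  fr : Fr1 H v (univ.erase v) l r t a
  last : ∃ c, ∀ p, H.Adj p v → l p ≠ v → r p ≠ v → p = c ∧ a p = 1

/-- **S_Init** (the frame on the first ear). PROOF. Copy of `PL/Init.lean` with `b` deleted. -/
def S_Init : Prop :=
  ∀ (V : Type u) [DecidableEq V] (H : SimpleGraph V) (v : V) (S : Finset V) (Q : List V),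
    EarL H S Q v v → (∀ p ∈ Q, p ∉ S) →
      ∃ (l r : V → V) (t : V → ℕ) (a : V → ℚ), Fr1 H v Q.toFinset l r t a ∧
        Q.Pairwise (fun p q => a p < a q) ∧
        (∀ p, Q.getLast? = some p → a p = 1) ∧
        (∀ p ∈ Q, v ∉ S → H.Adj p v → l p = v ∨ r p = v)

/-- **S_Core** (the frame after a further ear). PROOF. Copy of `PL/Core.lean` with `b` deleted and `a x`
replaced by the largest value `m` of `a` on `X` which is `< a y` (it exists and `a x ≤ m`, because
`x ∈ X`; `m` = `Finset.max'` of the image of `X.filter (a · < a y)` or `Finset.exists_max_image`): for `p ∈ Q`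
with index `i = Q.idxOf p` put `a' p = m + (a y - m) * ((i + 1) / k)`, `k = Q.length`. So
`m < a' p ≤ a y`, and `a z < a y` with `z ∈ X` gives `a z ≤ m < a' p`. -/
def S_Core : Prop :=
  ∀ (V : Type u) [DecidableEq V] (H : SimpleGraph V) (v : V) (X S : Finset V) (l r : V → V)
    (t : V → ℕ) (a : V → ℚ) (Q : List V) (x y : V),
    Fr1 H v X l r t a → EarL H S Q x y → (∀ p ∈ Q, p ∉ X ∧ p ≠ v ∧ p ∉ S) → (∀ p ∈ X, p ∉ S) →
    x ∈ X → y ∈ X → a x < a y →
      ∃ (l' r' : V → V) (t' : V → ℕ) (a' : V → ℚ), Fr1 H v (X ∪ Q.toFinset) l' r' t' a' ∧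
        (∀ p ∈ X, l' p = l p ∧ r' p = r p ∧ a' p = a p) ∧
        (∀ p ∈ Q, a' p ≤ a y ∧ ∀ z ∈ X, a z < a y → a z < a' p) ∧
        Q.Pairwise (fun p q => a' p < a' q) ∧
        (∀ p, Q.getLast? = some p → a' p = a y)

/-- **S_Next** (one step). PROOF. Copy of `PL/Next.lean` with large parts deleted. `TB.ear` for `U`, `c` gives
`Qs`, and `PL.S_Path` gives the list `Q` with `x`, `y`. Put `U' = U \ Qs`, `X = Uᶜ.erase v`. As there:
`x ≠ v`, `y ≠ v`, `x ≠ y`, both are pending (`Pend H U`). By `inj`, `a x ≠ a y`; by `PL.S_Rev` we may assume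
`a x < a y`. The new frame is given by `S_Core` (with `S = U'`; note `X ∪ Q.toFinset = U'ᶜ.erase v`).
`x` and `y` are not pending for `U'`; a processed vertex which was pending is `x`, `y` or still pending
(`hstay`). `inj`: let `p ≠ q` be pending for `U'` with `a' p = a' q`. Both in `X`: old `inj`. Both in `Q`:
`Pairwise` (one of them is before the other one in the list). `p ∈ Q`, `q ∈ X` (or vice versa): `q ≠ y`
since `y` is not pending for `U'`, so `a q ≠ a y` by the old `inj`; if `a q < a y` then `a q < a' p`, if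
`a y < a q` then `a' p ≤ a y < a q`. `p1`: the old vertex `p` with `a p = 1` is not `x`
(`a x < a y ≤ 1`); if it is `y`, take the last vertex of `Q`; otherwise it is still pending. -/
def S_Next : Prop :=
  ∀ (V : Type u) [DecidableEq V] [Fintype V] (H : SimpleGraph V) (v c : V) (U : Finset V)
    (l r : V → V) (t : V → ℕ) (a : V → ℚ), Cubic3 H → St1 H v c U l r t a → (∃ p ∈ U, p ≠ c) →
      ∃ (U' : Finset V) (l' r' : V → V) (t' : V → ℕ) (a' : V → ℚ),
        U'.card < U.card ∧ St1 H v c U' l' r' t' a'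

/-- **S_Start**. PROOF. Copy of `PL/Start.lean`; `inj` from `Pairwise` (all the processed vertices are in
`Q`). -/
def S_Start : Prop :=
  ∀ (V : Type u) [DecidableEq V] [Fintype V] (H : SimpleGraph V) (v : V), Cubic3 H →
    ∃ (c : V) (U : Finset V) (l r : V → V) (t : V → ℕ) (a : V → ℚ), St1 H v c U l r t a

/-- **S_End** (the last vertex). PROOF. Copy of `PL/End.lean`: the neighbours of `c` are `v` and two others
`x ≠ y`, which are pending for `{c}`; by `inj` we may assume `a x < a y`. `EarL H {v} [c] x y` holds, so `S_Core`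
with `S = {v}` gives the frame on `univ.erase v`. `last` (with this `c`): `p ≠ c` with `H.Adj p v` has
`l p = v` or `r p = v` (`vn`; `l' p = l p`); for `p = c`: `a' c = a y`; the pending vertex of `p1` is
`x` or `y`, it is not `x` since `a x < a y ≤ 1`, so `a y = 1`. -/
def S_End : Prop :=
  ∀ (V : Type u) [DecidableEq V] [Fintype V] (H : SimpleGraph V) (v c : V)
    (l r : V → V) (t : V → ℕ) (a : V → ℚ), Cubic3 H → St1 H v c {c} l r t a →
      ∃ (l' r' : V → V) (t' : V → ℕ) (a' : V → ℚ), Fin1 H v l' r' t' a'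

/-- **S_Data** (induction on the number of unprocessed vertices, from `S_Start`, `S_Next`, `S_End`).
PROOF. Copy of `PL/Data.lean`. -/
def S_Data : Prop :=
  ∀ (V : Type u) [DecidableEq V] [Fintype V] (H : SimpleGraph V) (v : V), Cubic3 H →
      ∃ (l r : V → V) (t : V → ℕ) (a : V → ℚ), Fin1 H v l r t a

/-- **S_Right** (the right end edges form a 2-base). PROOF. Copy of `PL/Right.lean` with `b` deleted (only
`a` is used there). -/
def S_Right : Prop :=
  ∀ (V : Type u) [DecidableEq V] [Fintype V] (H : SimpleGraph V) (v : V) (l r : V → V) (t : V → ℕ)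
    (a : V → ℚ) (R : V → V → Prop), Cubic3 H → Fin1 H v l r t a →
    Cl H v (fun p q => t p < t q ∧ r q = p) R → ∀ p q, p ≠ v → q ≠ v → R p q

/-- **S_Mid** (the edges inside of the ears form a 2-base). PROOF. Copy of `PL/Mid.lean` with `b`
deleted. -/
def S_Mid : Prop :=
  ∀ (V : Type u) [DecidableEq V] [Fintype V] (H : SimpleGraph V) (v : V) (l r : V → V) (t : V → ℕ)
    (a : V → ℚ) (R : V → V → Prop), Cubic3 H → Fin1 H v l r t a →
    Cl H v (fun p q => t p = t q) R → ∀ p q, p ≠ v → q ≠ v → R p q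

/-- **S_Tree** (a spanning tree from a parent function). `f p` = the parent of `p`, `f p = v` for the root.
PROOF. Let `T` be the graph of the statement, on the subtype `W = ({v}ᶜ : Set V)`. `T.Adj p q` iff `H.Adj p q`,
`¬ E p q` and `¬ E q p`. Connected: by strong induction on `μ p` every `p : W` is joined in `T` to some `z : W`
with `f z = v` (if `f p ≠ v`, then `T.Adj p (f p)` by (f1)); all such `z` are equal by (f0). `W` is
nonempty. Number of edges: fix the root `z`; by (f2) every edge of `T` is `s(p, f p)` for some `p : W` with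
`f p ≠ v`, i.e. `p ≠ z`, so `T.edgeSet` is contained in the image of `univ.erase z` and has at most
`card W - 1` elements. Now use `SimpleGraph.isTree_iff_connected_and_card` (or its current name) with
`SimpleGraph.Connected.card_vert_le_card_edgeSet_add_one` for the other inequality. -/
def S_Tree : Prop :=
  ∀ (V : Type u) [DecidableEq V] [Fintype V] (H : SimpleGraph V) (v : V) (E : V → V → Prop)
    (f : V → V) (μ : V → ℕ), (∃ p, p ≠ v) →
    (∀ p q, p ≠ v → q ≠ v → f p = v → f q = v → p = q) →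
    (∀ p, p ≠ v → f p ≠ v → H.Adj p (f p) ∧ μ (f p) < μ p ∧ ¬ E p (f p) ∧ ¬ E (f p) p) →
    (∀ p q, p ≠ v → q ≠ v → H.Adj p q → ¬ E p q → ¬ E q p → f p = q ∨ f q = p) →
      ((H.induce ({v}ᶜ : Set V)).deleteEdges
        {e | ∃ p q : ({v}ᶜ : Set V), e = s(p, q) ∧ H.Adj (p : V) q ∧ E p q}).IsTree

/-- **S_TR** (the complement of the left end edges is a tree). PROOF. `S_Tree` with `f = r`,
`μ p = t p * (N + 1) + (univ.filter fun q => a p < a q).card`, `N = Fintype.card V`. (∃): as in `PL/Main.lean`.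
(f0): `rv1`. (f1) `r p ≠ v`: `adjr`; by `memr` `t (r p) ≤ t p`; if `t (r p) < t p` the measure drops (the
cardinality is at most `N`); if they are equal, `ty` gives `a p < a (r p)` (the other possibility contains
`l p = r p`), `card_lt_of_lt` as in `PL/Mid.lean`. `E p q` is `t p < t q ∧ l q = p`: `¬ E p (r p)` because
`t (r p) ≤ t p`, `¬ E (r p) p` by `lr`. (f2): by symmetry `t p ≤ t q` (`le_total`); `ty` gives `r p = q`, or
`r q = p`, or `E p q`. -/
def S_TR : Prop :=
  ∀ (V : Type u) [DecidableEq V] [Fintype V] (H : SimpleGraph V) (v : V) (l r : V → V) (t : V → ℕ)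
    (a : V → ℚ), Cubic3 H → Fin1 H v l r t a →
      ((H.induce ({v}ᶜ : Set V)).deleteEdges {e | ∃ p q : ({v}ᶜ : Set V),
        e = s(p, q) ∧ H.Adj (p : V) q ∧ (t p < t q ∧ l q = p)}).IsTree

/-- **S_TL** (the complement of the right end edges is a tree). PROOF. `S_Tree` with `f = l`,
`μ p = t p * (N + 1) + (univ.filter fun q => a q < a p).card`, in the same way (`lv1`, `adjl`, `meml`). -/
def S_TL : Prop :=
  ∀ (V : Type u) [DecidableEq V] [Fintype V] (H : SimpleGraph V) (v : V) (l r : V → V) (t : V → ℕ)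
    (a : V → ℚ), Cubic3 H → Fin1 H v l r t a →
      ((H.induce ({v}ᶜ : Set V)).deleteEdges {e | ∃ p q : ({v}ᶜ : Set V),
        e = s(p, q) ∧ H.Adj (p : V) q ∧ (t p < t q ∧ r q = p)}).IsTree

/-- **S_TM** (the complement of the edges inside of the ears is a tree). PROOF. `PL.fDeg : PL.S_Deg` gives
for every `p` a neighbour `m p` with `m p ≠ l p`, `m p ≠ r p` (`choose`), and it is the only one (first part,
with `adjl`, `adjr`, `lr`; for `p ≠ v`). `S_Tree` with `f = m`, `μ p = (univ.filter fun q => t p < t q).card`.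
(f0): `m p = v` gives `H.Adj p v`, `l p ≠ v`, `r p ≠ v`, so `p = c` by `last`. (f1): let `w = m p ≠ v`; if
`t w ≤ t p`, then `ty w p` gives `l p = w` or `r p = w` in all four cases, contradiction; so `t p < t w`, the
measure drops (`w` is in the larger set only) and `t p ≠ t w`. `E p q` is `t p = t q`. (f2): `t p ≠ t q`; by
symmetry `t p < t q`; `q ≠ l p` and `q ≠ r p` by `meml`, `memr` (`q ≠ v`), so `q = m p`. -/
def S_TM : Prop :=
  ∀ (V : Type u) [DecidableEq V] [Fintype V] (H : SimpleGraph V) (v : V) (l r : V → V) (t : V → ℕ)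
    (a : V → ℚ), Cubic3 H → Fin1 H v l r t a →
      ((H.induce ({v}ᶜ : Set V)).deleteEdges {e | ∃ p q : ({v}ᶜ : Set V),
        e = s(p, q) ∧ H.Adj (p : V) q ∧ t p = t q}).IsTree

/-- **S_Card** (the sizes). PROOF. `(G.deleteEdges B).edgeSet = G.edgeSet \ B` (`SimpleGraph.edgeSet_deleteEdges`);
a tree on `W` has `card W - 1` edges (`SimpleGraph.IsTree.card_edgeFinset` or the one of `S_Tree`), so the three
numbers `(G.edgeSet \ Bᵢ).ncard` are equal, hence (all sets are finite) the numbers `Bᵢ.ncard` are equal, and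
their sum is `G.edgeSet.ncard` (`Set.ncard_union_eq`). -/
def S_Card : Prop :=
  ∀ (W : Type u) [Fintype W] (G : SimpleGraph W) (B₁ B₂ B₃ : Set (Sym2 W)),
    Disjoint B₁ B₂ → Disjoint B₁ B₃ → Disjoint B₂ B₃ → B₁ ∪ B₂ ∪ B₃ = G.edgeSet →
    (G.deleteEdges B₁).IsTree → (G.deleteEdges B₂).IsTree → (G.deleteEdges B₃).IsTree →
      3 * B₁.ncard = G.edgeSet.ncard ∧ 3 * B₂.ncard = G.edgeSet.ncard ∧
      3 * B₃.ncard = G.edgeSet.ncard

/-- **S_Main** (assembly). PROOF. As `PL/Main.lean`, from `S_Data`, `S_Right`, `S_Mid`, `PL.fBase : PL.S_Base`,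
`S_TR`, `S_TL`, `S_TM`, `S_Card`. `B₁` = the edges with `t p = t q`, `B₂` = the left end edges, `B₃` = the right
end edges. -/
def S_Main : Prop :=
  ∀ (V : Type u) [DecidableEq V] [Fintype V] (H : SimpleGraph V) (v : V), Cubic3 H →
      ∃ B₁ B₂ B₃ : Set (Sym2 ({v}ᶜ : Set V)),
        Disjoint B₁ B₂ ∧ Disjoint B₁ B₃ ∧ Disjoint B₂ B₃ ∧
        B₁ ∪ B₂ ∪ B₃ = (H.induce ({v}ᶜ : Set V)).edgeSet ∧
        3 * B₁.ncard = (H.induce ({v}ᶜ : Set V)).edgeSet.ncard ∧
        3 * B₂.ncard = (H.induce ({v}ᶜ : Set V)).edgeSet.ncard ∧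
        3 * B₃.ncard = (H.induce ({v}ᶜ : Set V)).edgeSet.ncard ∧
        ((H.induce ({v}ᶜ : Set V)).deleteEdges B₁).IsTree ∧
        ((H.induce ({v}ᶜ : Set V)).deleteEdges B₂).IsTree ∧
        ((H.induce ({v}ᶜ : Set V)).deleteEdges B₃).IsTree ∧
        IsKBase (H.induce ({v}ᶜ : Set V)) 2 B₁ ∧ IsKBase (H.induce ({v}ᶜ : Set V)) 2 B₃

end TB.TT
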