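import Pool.Agent.Lib.MP_80160f_co.TT.Spec

/-!
# MP_80160f_co, part TT : the complement of the edges inside of the ears is a tree
-/

set_option autoImplicit false

namespace TB.TT

open Finset TB.PL

universe u

theorem fTM (h1 : S_Tree.{u}) (h2 : PL.S_Deg.{u}) : S_TM.{u} := by
  intro V _ _ H v l r t a hC hF
  obtain ⟨hu, hex, -⟩ := h2 V H hC
  choose m hm using fun p => hex p (l p) (r p)
  have he : ∀ p : V, p ≠ v → p ∈ univ.erase v := fun p hp => mem_erase.2 ⟨hp, mem_univ _⟩
  have huniq : ∀ p, p ≠ v → ∀ q, H.Adj p q → q ≠ l p → q ≠ r p → q = m p := fun p hp q hq hl hr =>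
    hu p (l p) (r p) q (m p) (hF.fr.adjl p (he p hp)) (hF.fr.adjr p (he p hp)) (hF.fr.lr p (he p hp))
      hq hl hr (hm p).1 (hm p).2.1 (hm p).2.2
  have key : ∀ p q : V, p ≠ v → q ≠ v → H.Adj p q → t p < t q → m p = q := by
    intro p q hp hq hpq hlt
    refine (huniq p hp q hpq ?_ ?_).symm
    · intro h
      rcases hF.fr.meml p (he p hp) with h' | h'
      · exact hq (h.trans h')
      · rw [← h] at h'
        exact absurd h'.2 (not_le.2 hlt)
    · intro h
      rcases hF.fr.memr p (he p hp) with h' | h'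
      · exact hq (h.trans h')
      · rw [← h] at h'
        exact absurd h'.2 (not_le.2 hlt)
  have hlt : ∀ p, p ≠ v → m p ≠ v → t p < t (m p) := by
    intro p hp hmv
    by_contra hn
    rcases hF.fr.ty (m p) (he _ hmv) p (he p hp) (hm p).1.symm (not_lt.1 hn) with
      ⟨-, h | h⟩ | ⟨-, h | h⟩
    · exact (hm p).2.1 h.2.1.symm
    · exact (hm p).2.2 h.1.symm
    · exact (hm p).2.1 h.1.symm
    · exact (hm p).2.2 h.1.symm
  have hne : ∃ p, p ≠ v := by
    obtain ⟨w, -, hw⟩ := exists_ne_zero_of_sum_ne_zero (s := univ) (f := fun y => ew H v y)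
      (by rw [hC.deg v]; omega)
    refine ⟨w, fun h => hw ?_⟩
    rw [h]
    exact ew_not (H.loopless.irrefl v)
  obtain ⟨c, hc⟩ := hF.last
  refine h1 V H v (fun p q => t p = t q) m (fun p => (univ.filter fun q => t p < t q).card) hne
    ?_ ?_ ?_
  · intro p q _ _ h h'
    have e1 := (hm p).1
    have e2 := (hm q).1
    have e3 := (hm p).2
    have e4 := (hm q).2
    rw [h] at e1 e3
    rw [h'] at e2 e4
    rw [(hc p e1 e3.1.symm e3.2.symm).1, (hc q e2 e4.1.symm e4.2.symm).1]
  · intro p hp hmv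
    have h := hlt p hp hmv
    refine ⟨(hm p).1, ?_, h.ne, h.ne'⟩
    apply card_lt_card
    refine ⟨?_, ?_⟩
    · intro q hq
      rw [mem_filter] at hq ⊢
      exact ⟨hq.1, h.trans hq.2⟩
    · intro hsub
      have h3 := hsub (mem_filter.2 ⟨mem_univ (m p), h⟩)
      exact lt_irrefl _ (mem_filter.1 h3).2
  · intro p q hp hq hpq hE hE'
    rcases lt_or_gt_of_ne hE with h | h
    · exact Or.inl (key p q hp hq hpq h)
    · exact Or.inr (key q p hq hp hpq.symm h)

end TB.TT
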